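import Pool.Agent.K1H73.DY.Stm
import Pool.Agent.W999.HB.TP
import Pool.Agent.R940.Slope

set_option autoImplicit false

/-! A Frobenius element in the absolute Galois group of the field of `p`-adic numbers. -/

namespace Pool.Agent.K1H92.DY

open Polynomial Pool.Agent.K1H73.DY

lemma norm_int {p : ℕ} [hp : Fact p.Prime] (a : ℤ_[p]) :
    ‖algebraMap ℤ_[p] (PadicAlgCl p) a‖ = ‖a‖ := by
  rw [IsScalarTower.algebraMap_apply ℤ_[p] ℚ_[p] (PadicAlgCl p)]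
  exact PadicAlgCl.norm_extends p (a : ℚ_[p])

lemma int_inj {p : ℕ} [hp : Fact p.Prime] : Function.Injective (algebraMap ℤ_[p] (PadicAlgCl p)) := by
  rw [injective_iff_map_eq_zero]
  intro a ha
  rw [← norm_eq_zero, ← norm_int a, ha, norm_zero]

lemma iota {p : ℕ} [hp : Fact p.Prime] (R : Subring (PadicAlgCl p)) (hR : ∀ x, x ∈ R ↔ ‖x‖ ≤ 1) :
    ∃ ι : ℤ_[p] →+* R, ∀ a, ((ι a : R) : PadicAlgCl p) = algebraMap ℤ_[p] (PadicAlgCl p) a :=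
  ⟨(algebraMap ℤ_[p] (PadicAlgCl p)).codRestrict R (fun a => by
    rw [hR, norm_int]; exact PadicInt.norm_le_one a), fun _ => rfl⟩

lemma eval_iota {p : ℕ} [hp : Fact p.Prime] {R : Subring (PadicAlgCl p)} (ι : ℤ_[p] →+* R)
    (hι : ∀ a, ((ι a : R) : PadicAlgCl p) = algebraMap ℤ_[p] (PadicAlgCl p) a)
    (P : ℤ_[p][X]) (x : R) : ((P.eval₂ ι x : R) : PadicAlgCl p) = aeval (x : PadicAlgCl p) P := by
  have h1 := hom_eval₂ P ι R.subtype x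
  have h2 : R.subtype.comp ι = algebraMap ℤ_[p] (PadicAlgCl p) := RingHom.ext hι
  rw [h2] at h1
  rw [aeval_def]
  exact h1

lemma res_poly {p : ℕ} [hp : Fact p.Prime] {k : Type} [Field k] [CharP k p]
    {R : Subring (PadicAlgCl p)} {res : R →+* k} (hR : ∀ x, x ∈ R ↔ ‖x‖ ≤ 1)
    (hres : ∀ x : R, res x = 0 ↔ ‖(x : PadicAlgCl p)‖ < 1) :
    ∃ ρ : ℤ_[p] →+* k, (∀ (P : ℤ_[p][X]) (x y : R), (y : PadicAlgCl p) = aeval (x : PadicAlgCl p) P →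
      res y = (P.map ρ).eval (res x)) ∧
      ∀ (P : ℤ_[p][X]) (z : k), (P.map ρ).eval (z ^ p) = ((P.map ρ).eval z) ^ p := by
  obtain ⟨ι, hι⟩ := iota R hR
  have hexp : ExpChar k p := ExpChar.prime hp.out
  refine ⟨res.comp ι, fun P x y hy => ?_, fun P z => ?_⟩
  · have h1 : y = P.eval₂ ι x := Subtype.ext (by rw [hy, eval_iota ι hι])
    rw [h1, hom_eval₂, eval_map]
  · have hρ : (frobenius k p).comp (res.comp ι) = res.comp ι := by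
      ext a
      obtain ⟨n, -, hn⟩ := PadicInt.exists_mem_range a
      have h1 : (res.comp ι) (a - n) = 0 := by
        rw [RingHom.comp_apply, hres, hι, norm_int]
        exact PadicInt.mem_nonunits.mp ((IsLocalRing.mem_maximalIdeal _).mp hn)
      rw [map_sub, map_natCast, sub_eq_zero] at h1
      rw [RingHom.comp_apply, h1, map_natCast]
    have h1 := map_frobenius_expand (R := k) p (P.map (res.comp ι))
    rw [map_expand, Polynomial.map_map, hρ] at h1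
    rw [← expand_eval, h1, eval_pow]

lemma norm_root {p : ℕ} [hp : Fact p.Prime] {N : ℕ} (hN : 0 < N) (w : PadicAlgCl p)
    (hw : w ^ N = 1) : ‖w‖ = 1 := by
  have h1 : ‖w‖ ^ N = 1 := by rw [← norm_pow, hw, norm_one]
  exact (pow_eq_one_iff_of_nonneg (norm_nonneg _) hN.ne').mp h1

lemma small {p : ℕ} [hp : Fact p.Prime] {k : Type} [Field k] [CharP k p]
    {R : Subring (PadicAlgCl p)} {res : R →+* k} (hR : ∀ x, x ∈ R ↔ ‖x‖ ≤ 1)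
    (hres : ∀ x : R, res x = 0 ↔ ‖(x : PadicAlgCl p)‖ < 1) (ζ : PadicAlgCl p) (hζ : ‖ζ‖ ≤ 1)
    (P : ℤ_[p][X]) (hP : aeval ζ P = 0) : ‖aeval (ζ ^ p) P‖ < 1 := by
  obtain ⟨ρ, h1, h2⟩ := res_poly hR hres
  obtain ⟨ι, hι⟩ := iota R hR
  have hm : ζ ∈ R := (hR ζ).mpr hζ
  have hm2 : ζ ^ p ∈ R := R.pow_mem hm p
  have h3 := h1 P ⟨ζ, hm⟩ 0 (by rw [hP]; rfl)
  rw [map_zero] at h3
  have h4 := h1 P ⟨ζ ^ p, hm2⟩ (P.eval₂ ι ⟨ζ ^ p, hm2⟩) (eval_iota ι hι P _)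
  have h5 : (⟨ζ ^ p, hm2⟩ : R) = (⟨ζ, hm⟩ : R) ^ p := Subtype.ext rfl
  rw [h5, map_pow, h2, ← h3, zero_pow hp.out.ne_zero, ← h5, hres, eval_iota ι hι] at h4
  exact h4

lemma int_val {p : ℕ} [hp : Fact p.Prime] (x : PadicAlgCl p) (hx : ‖x‖ ≤ 1)
    {R : Subring (PadicAlgCl p)} (hR : ∀ x, x ∈ R ↔ ‖x‖ ≤ 1)
    (P : ℤ_[p][X]) : ‖aeval x P‖ ≤ 1 := by
  obtain ⟨ι, hι⟩ := iota R hR
  have h := eval_iota ι hι P ⟨x, (hR x).mpr hx⟩
  rw [← hR]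
  change aeval ((⟨x, (hR x).mpr hx⟩ : R) : PadicAlgCl p) P ∈ R
  rw [← h]
  exact Subtype.mem _

lemma norm_nat {p : ℕ} [hp : Fact p.Prime] (N : ℕ) (hd : ¬ p ∣ N) :
    ‖((N : ℕ) : PadicAlgCl p)‖ = 1 := by
  have e1 : ((N : ℕ) : PadicAlgCl p) = algebraMap ℤ_[p] (PadicAlgCl p) (N : ℤ_[p]) := by
    rw [map_natCast]
  rw [e1, norm_int, PadicInt.norm_def, PadicInt.coe_natCast]
  rw [Padic.norm_natCast_eq_one_iff]
  exact (Nat.Prime.coprime_iff_not_dvd hp.out).mpr hd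

lemma exists_sigma {p : ℕ} [hp : Fact p.Prime] {k : Type} [Field k] [CharP k p]
    {R : Subring (PadicAlgCl p)} {res : R →+* k} (hR : ∀ x, x ∈ R ↔ ‖x‖ ≤ 1)
    (hres : ∀ x : R, res x = 0 ↔ ‖(x : PadicAlgCl p)‖ < 1) (N : ℕ) (hN0 : 0 < N) (hpN : ¬ p ∣ N)
    (ζ : PadicAlgCl p) (hζN : ζ ^ N = 1) :
    ∃ σ : PadicAlgCl p ≃ₐ[ℚ_[p]] PadicAlgCl p, σ ζ = ζ ^ p := by
  have hζn : ‖ζ‖ = 1 := norm_root hN0 ζ hζN
  have hint : IsIntegral ℤ_[p] ζ := by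
    refine ⟨X ^ N - C 1, monic_X_pow_sub_C (1 : ℤ_[p]) hN0.ne', ?_⟩
    rw [eval₂_sub, eval₂_X_pow, eval₂_C, hζN, map_one, sub_self]
  have hz : (ζ ^ p) ^ N = 1 := by rw [← pow_mul, mul_comm, pow_mul, hζN, one_pow]
  have hfs : FaithfulSMul ℤ_[p] (PadicAlgCl p) :=
    (faithfulSMul_iff_algebraMap_injective _ _).mpr int_inj
  have htf : Module.IsTorsionFree ℤ_[p] (PadicAlgCl p) := inferInstance
  have hroot : aeval (ζ ^ p) (minpoly ℤ_[p] ζ) = 0 := by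
    by_contra hne
    have hsmall := small hR hres ζ hζn.le (minpoly ℤ_[p] ζ) (minpoly.aeval _ _)
    obtain ⟨g, hg⟩ : minpoly ℤ_[p] ζ ∣ X ^ N - 1 := minpoly.isIntegrallyClosed_dvd hint (by
      rw [map_sub, aeval_X_pow, map_one, hζN, sub_self])
    have h1 : aeval (ζ ^ p) (minpoly ℤ_[p] ζ) * aeval (ζ ^ p) g = 0 := by
      rw [← map_mul, ← hg, map_sub, aeval_X_pow, map_one, hz, sub_self]
    have h2 : aeval (ζ ^ p) g = 0 := (mul_eq_zero.mp h1).resolve_left hne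
    have h3 := congrArg (fun q => aeval (ζ ^ p) (derivative q)) hg
    simp only [derivative_mul, derivative_sub, derivative_X_pow, derivative_one, sub_zero, map_add,
      map_mul, h2, mul_zero, zero_add, map_natCast, aeval_X_pow] at h3
    have h5 : ‖aeval (ζ ^ p) (derivative g)‖ ≤ 1 := int_val _ (by
      rw [norm_pow, hζn, one_pow]) hR _
    have h6 := congrArg norm h3
    rw [norm_mul, norm_mul, norm_nat N hpN, norm_pow, norm_root hN0 _ hz, one_pow, mul_one] at h6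
    have h7 : ‖aeval (ζ ^ p) (minpoly ℤ_[p] ζ)‖ * ‖aeval (ζ ^ p) (derivative g)‖ < 1 := by
      calc _ ≤ ‖aeval (ζ ^ p) (minpoly ℤ_[p] ζ)‖ * 1 := mul_le_mul_of_nonneg_left h5 (norm_nonneg _)
        _ < 1 := by rw [mul_one]; exact hsmall
    linarith
  have h1 : aeval (ζ ^ p) (minpoly ℚ_[p] ζ) = 0 := by
    rw [minpoly.isIntegrallyClosed_eq_field_fractions' ℚ_[p] hint, aeval_map_algebraMap]
    exact hroot
  have h2 : IsConjRoot ℚ_[p] ζ (ζ ^ p) := isConjRoot_of_aeval_eq_zero hint.tower_top h1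
  obtain ⟨σ, hσ⟩ := isConjRoot_iff_exists_algEquiv.mp h2.symm
  exact ⟨σ, hσ⟩

lemma near_root {p : ℕ} [hp : Fact p.Prime] (N : ℕ) (hN0 : 0 < N) (ζ : PadicAlgCl p)
    (hζ : IsPrimitiveRoot ζ N) (x : PadicAlgCl p) (h1 : ‖x ^ N - 1‖ < 1) :
    ∃ j : ℕ, ‖x - ζ ^ j‖ < 1 := by
  by_contra hcon
  push Not at hcon
  have hne : NeZero N := ⟨hN0.ne'⟩
  have e1 := X_pow_sub_one_eq_prod hN0 hζ
  have e2 : x ^ N - 1 = ∏ w ∈ nthRootsFinset N (1 : PadicAlgCl p), (x - w) := by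
    have := congrArg (fun q => eval x q) e1
    simp only [eval_sub, eval_pow, eval_X, eval_one, eval_prod, eval_C] at this
    exact this
  rw [e2, norm_prod] at h1
  refine absurd h1 (not_lt.mpr ?_)
  have e3 : ∏ _w ∈ nthRootsFinset N (1 : PadicAlgCl p), (1 : ℝ) = 1 := Finset.prod_const_one
  rw [← e3]
  apply Finset.prod_le_prod (fun _ _ => zero_le_one)
  intro w hw
  rw [mem_nthRootsFinset hN0] at hw
  obtain ⟨j, -, rfl⟩ := hζ.eq_pow_of_pow_eq_one hw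
  exact hcon j

lemma res_iff {p : ℕ} [hp : Fact p.Prime] {k : Type} [Field k]
    {R : Subring (PadicAlgCl p)} {res : R →+* k}
    (hres : ∀ x : R, res x = 0 ↔ ‖(x : PadicAlgCl p)‖ < 1) (x y : R) :
    ‖(x : PadicAlgCl p) - y‖ < 1 ↔ res x = res y := by
  rw [← sub_eq_zero (a := res x), ← map_sub, hres, AddSubgroupClass.coe_sub]

lemma res_pow {p : ℕ} [hp : Fact p.Prime] {k : Type} [Field k]
    {R : Subring (PadicAlgCl p)} (res : R →+* k) (x y : R) (n : ℕ)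
    (h : (y : PadicAlgCl p) = (x : PadicAlgCl p) ^ n) : res y = res x ^ n := by
  rw [← map_pow]
  congr 1
  exact Subtype.ext (by rw [h, SubmonoidClass.coe_pow])

lemma ultra {p : ℕ} [hp : Fact p.Prime] {k : Type} [Field k]
    {R : Subring (PadicAlgCl p)} {res : R →+* k} (hR : ∀ x, x ∈ R ↔ ‖x‖ ≤ 1)
    (hres : ∀ x : R, res x = 0 ↔ ‖(x : PadicAlgCl p)‖ < 1) (n : ℕ) (a b c d : PadicAlgCl p)
    (ha : ‖a‖ ≤ 1) (hb : ‖b‖ ≤ 1) (hc : ‖c‖ ≤ 1) (hd : ‖d‖ ≤ 1) (h1 : ‖a - b‖ < 1)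
    (h2 : b = d ^ n) (h3 : ‖c - d‖ < 1) : ‖a - c ^ n‖ < 1 := by
  have e1 := (res_iff hres ⟨a, (hR a).mpr ha⟩ ⟨b, (hR b).mpr hb⟩).mp h1
  have e2 := (res_iff hres ⟨c, (hR c).mpr hc⟩ ⟨d, (hR d).mpr hd⟩).mp h3
  have e3 := res_pow res ⟨d, (hR d).mpr hd⟩ ⟨b, (hR b).mpr hb⟩ n h2
  have hcn : c ^ n ∈ R := R.pow_mem ((hR c).mpr hc) n
  have e4 := res_pow res ⟨c, (hR c).mpr hc⟩ ⟨c ^ n, hcn⟩ n rfl
  exact (res_iff hres ⟨a, (hR a).mpr ha⟩ ⟨c ^ n, hcn⟩).mpr (by rw [e1, e3, e4, e2])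

lemma frob_core {p : ℕ} [hp : Fact p.Prime] {k : Type} [Field k]
    {R : Subring (PadicAlgCl p)} {res : R →+* k} (hR : ∀ x, x ∈ R ↔ ‖x‖ ≤ 1)
    (hres : ∀ x : R, res x = 0 ↔ ‖(x : PadicAlgCl p)‖ < 1) (N : ℕ) (hN0 : 0 < N)
    (ζ : PadicAlgCl p) (hζ : IsPrimitiveRoot ζ N) (σ : PadicAlgCl p ≃ₐ[ℚ_[p]] PadicAlgCl p)
    (hσ : σ ζ = ζ ^ p) (x : PadicAlgCl p) (hx : ‖x‖ ≤ 1) (hxq : ‖x ^ (N + 1) - x‖ < 1) :
    ‖σ x - x ^ p‖ < 1 := by
  have hσn := Pool.Agent.R940.norm_gal σ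
  have hσx : ‖σ x‖ ≤ 1 := by rw [hσn]; exact hx
  by_cases hx0 : ‖x‖ < 1
  · refine ultra hR hres p (σ x) 0 x 0 hσx (by rw [norm_zero]; exact zero_le_one) hx
      (by rw [norm_zero]; exact zero_le_one) ?_ ?_ ?_
    · rw [sub_zero, hσn]; exact hx0
    · rw [zero_pow hp.out.ne_zero]
    · rw [sub_zero]; exact hx0
  · have hx1 : ‖x‖ = 1 := le_antisymm hx (not_lt.mp hx0)
    have h1 : ‖x ^ N - 1‖ < 1 := by
      have e1 : x ^ (N + 1) - x = x * (x ^ N - 1) := by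
        rw [pow_succ, mul_sub, mul_one, mul_comm]
      rw [e1, norm_mul, hx1, one_mul] at hxq
      exact hxq
    obtain ⟨j, hxw⟩ := near_root N hN0 ζ hζ x h1
    have hw : (ζ ^ j) ^ N = 1 := by
      rw [← pow_mul, mul_comm, pow_mul, hζ.pow_eq_one, one_pow]
    have hwn := norm_root hN0 _ hw
    refine ultra hR hres p (σ x) (σ (ζ ^ j)) x (ζ ^ j) hσx (by rw [hσn, hwn]) hx hwn.le ?_ ?_ hxw
    · rw [← map_sub, hσn]
      exact hxw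
    · rw [map_pow, hσ, ← pow_mul, ← pow_mul, mul_comm]

theorem frob : S_FROB := by
  intro p hp M hM
  obtain ⟨k, hk, R, res, hac, hch, hR, hres⟩ := Pool.Agent.W999.HB.TP.main p
  have hpM : 2 ≤ p ^ M := le_trans hp.out.two_le (Nat.le_self_pow (by omega) p)
  obtain ⟨N, hN⟩ : ∃ N, p ^ M = N + 1 := ⟨p ^ M - 1, by omega⟩
  have hN0 : 0 < N := by omega
  have hpN : ¬ p ∣ N := by
    intro hd
    have h5 : p ∣ N + 1 := hN ▸ dvd_pow_self p (by omega)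
    have h6 : p ∣ 1 := (Nat.dvd_add_right hd).mp h5
    exact hp.out.one_lt.ne' (Nat.dvd_one.mp h6)
  have hne : NeZero N := ⟨hN0.ne'⟩
  have hNe : NeZero (N : PadicAlgCl p) := ⟨by exact_mod_cast hN0.ne'⟩
  obtain ⟨ζ, hζ⟩ := HasEnoughRootsOfUnity.exists_primitiveRoot (PadicAlgCl p) N
  obtain ⟨σ, hσ⟩ := exists_sigma hR hres N hN0 hpN ζ hζ.pow_eq_one
  refine ⟨σ, fun x hx hxq => ?_⟩
  rw [hN] at hxq
  exact frob_core hR hres N hN0 ζ hζ σ hσ x hx hxq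

end Pool.Agent.K1H92.DY
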